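import Mathlib

set_option autoImplicit false

namespace Pool.Agent.Results.MP_9bc523_co.NoSupersat

/-- `x` is a solution of `A x = c` in positive integers with pairwise distinct entries. -/
def DistinctSol {l k : ℕ} (A : Matrix (Fin l) (Fin k) ℤ) (c : Fin l → ℤ) (x : Fin k → ℕ) : Prop :=
  A.mulVec (fun j => (x j : ℤ)) = c ∧ Function.Injective x ∧ ∀ j, 1 ≤ x j

theorem sol_iff (b : ℤ) (x : Fin 2 → ℕ) :
    DistinctSol (!![1, -2] : Matrix (Fin 1) (Fin 2) ℤ) (fun _ => b) x ↔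
      (x 0 : ℤ) = 2 * x 1 + b ∧ x 0 ≠ x 1 ∧ 1 ≤ x 0 ∧ 1 ≤ x 1 := by
  unfold DistinctSol
  constructor
  · rintro ⟨h1, h2, h3⟩
    have := congrFun h1 0
    simp [Matrix.mulVec, dotProduct, Fin.sum_univ_two] at this
    refine ⟨by linarith, fun h => by simpa using h2 h, h3 0, h3 1⟩
  · rintro ⟨h1, h2, h3, h4⟩
    refine ⟨?_, ?_, ?_⟩
    · funext i
      fin_cases i
      simp [Matrix.mulVec, dotProduct, Fin.sum_univ_two]
      linarith
    · intro i j hij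
      fin_cases i <;> fin_cases j <;> simp_all
    · intro j
      fin_cases j <;> simp_all

theorem rank_one : ((!![1, -2] : Matrix (Fin 1) (Fin 2) ℤ).map (Int.cast : ℤ → ℚ)).rank = 1 := by
  apply le_antisymm
  · simpa using Matrix.rank_le_height ((!![1, -2] : Matrix (Fin 1) (Fin 2) ℤ).map (Int.cast : ℤ → ℚ))
  · have h := Matrix.rank_mul_le_left ((!![1, -2] : Matrix (Fin 1) (Fin 2) ℤ).map (Int.cast : ℤ → ℚ))
      (!![1; 0] : Matrix (Fin 2) (Fin 1) ℚ)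
    have e : ((!![1, -2] : Matrix (Fin 1) (Fin 2) ℤ).map (Int.cast : ℤ → ℚ)) *
        (!![1; 0] : Matrix (Fin 2) (Fin 1) ℚ) = 1 := by
      ext i j
      fin_cases i; fin_cases j
      simp [Matrix.mul_apply, Fin.sum_univ_two]
    rw [e, Matrix.rank_one] at h
    simpa using h

def col (m : ℕ) : Fin 2 := if Nat.log 2 m % 2 = 0 then 0 else 1

theorem col_double (y : ℕ) (hy : 1 ≤ y) : col (2 * y) ≠ col y := by
  unfold col
  rw [mul_comm, Nat.log_mul_base (by norm_num) (by omega)]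
  split_ifs <;> omega

theorem pow_of_col (y : ℕ) (hy : 1 ≤ y) (h : col (y + 1) ≠ col y) :
    y + 1 = 2 ^ Nat.log 2 (y + 1) := by
  have h1 : Nat.log 2 (y + 1) ≠ Nat.log 2 y := fun e => h (by unfold col; rw [e])
  have h2 := Nat.pow_log_le_self 2 (show y + 1 ≠ 0 by omega)
  by_contra hne
  have h3 : 2 ^ Nat.log 2 (y + 1) ≤ y := by omega
  have h4 := Nat.le_log_of_pow_le (by norm_num : 1 < 2) h3
  have h5 := Nat.log_mono_right (b := 2) (show y ≤ y + 1 by omega)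
  omega

theorem fin2 (a b c : Fin 2) (h1 : a ≠ b) (h2 : a = c) (h3 : b = c) : False := h1 (h2.trans h3.symm)

theorem forced : ∀ c1 c2 c3 c4 c5 c6 c8 c10 c12 : Fin 2,
    (c2 = 0 → c1 = 0 → False) → (c4 = 0 → c2 = 0 → False) → (c6 = 0 → c3 = 0 → False) →
    (c8 = 0 → c4 = 0 → False) → (c10 = 0 → c5 = 0 → False) → (c12 = 0 → c6 = 0 → False) →
    (c4 = 1 → c1 = 1 → False) → (c6 = 1 → c2 = 1 → False) → (c8 = 1 → c3 = 1 → False) →
    (c10 = 1 → c4 = 1 → False) → (c12 = 1 → c5 = 1 → False) → False := by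
  intro c1 c2 c3 c4 c5 c6 c8 c10 c12 a1 a2 a3 a4 a5 a6 b1 b2 b3 b4 b5
  simp only [imp_false, Fin.ext_iff, Fin.val_zero, Fin.val_one] at *
  omega

theorem count (n : ℕ) (i : Fin 2) :
    {x : Fin 2 → ℕ | DistinctSol (!![1, -2] : Matrix (Fin 1) (Fin 2) ℤ) (fun _ => 2 * (i : ℕ)) x ∧
      ∀ j, x j ≤ n ∧ col (x j) = i}.ncard ≤ Nat.log 2 n + 1 := by
  have hsub : {x : Fin 2 → ℕ | DistinctSol (!![1, -2] : Matrix (Fin 1) (Fin 2) ℤ)
      (fun _ => 2 * (i : ℕ)) x ∧ ∀ j, x j ≤ n ∧ col (x j) = i} ⊆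
      (((Finset.range (Nat.log 2 n + 1)).image
        (fun t => (![2 * 2 ^ t, 2 ^ t - 1] : Fin 2 → ℕ)) : Finset (Fin 2 → ℕ)) : Set (Fin 2 → ℕ)) := by
    rintro x ⟨h1, h2⟩
    rw [sol_iff] at h1
    obtain ⟨e, -, -, hy⟩ := h1
    fin_cases i
    · exfalso
      have e' : x 0 = 2 * x 1 := by simp at e; omega
      exact fin2 _ _ _ (col_double (x 1) hy) (e' ▸ (h2 0).2) (h2 1).2
    · have e' : x 0 = 2 * (x 1 + 1) := by simp at e; omega
      have c1 : col (2 * (x 1 + 1)) = col (x 1) := by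
        rw [← e', (h2 0).2, (h2 1).2]
      have c2 := col_double (x 1 + 1) (by omega)
      have c3 := pow_of_col (x 1) hy (fun h => c2 (c1.trans h.symm))
      simp only [Finset.coe_image, Finset.coe_range, Set.mem_image, Set.mem_Iio]
      refine ⟨Nat.log 2 (x 1 + 1), ?_, ?_⟩
      · have := Nat.log_mono_right (b := 2) (show x 1 + 1 ≤ n by have := (h2 0).1; omega)
        omega
      · funext j
        fin_cases j
        · simp; omega
        · simp; omega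
  calc _ ≤ _ := Set.ncard_le_ncard hsub (Finset.finite_toSet _)
    _ ≤ _ := by
      rw [Set.ncard_coe_finset]
      exact Finset.card_image_le.trans (by simp)

/-- Negative answer to Q1 (the negated form of the problem). -/
theorem result :
    ∃ (r : ℕ) (l k : Fin r → ℕ) (A : ∀ i, Matrix (Fin (l i)) (Fin (k i)) ℤ)
      (c : ∀ i, Fin (l i) → ℤ),
      0 < r ∧
      (∀ i, ((A i).map (Int.cast : ℤ → ℚ)).rank = l i) ∧
      (∀ i, ∃ x, DistinctSol (A i) (c i) x) ∧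
      (∀ i, ∃ x, DistinctSol (A i) 0 x) ∧
      (∀ χ : ℕ → Fin r, ∃ i x, DistinctSol (A i) (c i) x ∧ ∀ j, χ (x j) = i) ∧
      ∀ γ : ℝ, 0 < γ → ∀ n₀ : ℕ, ∃ n > n₀, ∃ χ : ℕ → Fin r, ∀ i,
        ({x : Fin (k i) → ℕ | DistinctSol (A i) (c i) x ∧ ∀ j, x j ≤ n ∧ χ (x j) = i}.ncard : ℝ)
          < γ * (n : ℝ) ^ (k i - l i) := by
  refine ⟨2, fun _ => 1, fun _ => 2, fun _ => !![1, -2], fun i _ => 2 * (i : ℕ), by norm_num,
    fun _ => rank_one, ?_, ?_, ?_, ?_⟩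
  · intro i
    refine ⟨![2 + 2 * (i : ℕ), 1], (sol_iff _ _).2 ?_⟩
    simp
    omega
  · intro i
    exact ⟨![2, 1], (sol_iff 0 _).2 (by simp)⟩
  · intro χ
    by_contra hcon
    push Not at hcon
    have h0 : ∀ y : ℕ, 1 ≤ y → χ (2 * y) = 0 → χ y = 0 → False := by
      intro y hy e1 e2
      obtain ⟨j, hj⟩ := hcon 0 ![2 * y, y] ((sol_iff _ _).2 (by simp; omega))
      fin_cases j <;> simp_all
    have h1 : ∀ y : ℕ, 1 ≤ y → χ (2 * y + 2) = 1 → χ y = 1 → False := by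
      intro y hy e1 e2
      obtain ⟨j, hj⟩ := hcon 1 ![2 * y + 2, y] ((sol_iff _ _).2 (by simp; omega))
      fin_cases j <;> simp_all
    exact forced (χ 1) (χ 2) (χ 3) (χ 4) (χ 5) (χ 6) (χ 8) (χ 10) (χ 12)
      (h0 1 (by norm_num)) (h0 2 (by norm_num)) (h0 3 (by norm_num)) (h0 4 (by norm_num))
      (h0 5 (by norm_num)) (h0 6 (by norm_num)) (h1 1 (by norm_num)) (h1 2 (by norm_num))
      (h1 3 (by norm_num)) (h1 4 (by norm_num)) (h1 5 (by norm_num))
  · intro γ hγ n₀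
    have ht : Filter.Tendsto (fun t : ℕ => ((t : ℝ) + 1) / 2 ^ t) Filter.atTop (nhds 0) := by
      have h1 := tendsto_pow_const_div_const_pow_of_one_lt 1 (show (1 : ℝ) < 2 by norm_num)
      have h2 := tendsto_pow_const_div_const_pow_of_one_lt 0 (show (1 : ℝ) < 2 by norm_num)
      simpa [add_div] using h1.add h2
    obtain ⟨t, ht1, ht2⟩ := ((ht.eventually_lt_const hγ).and (Filter.eventually_ge_atTop n₀)).exists
    refine ⟨2 ^ t, lt_of_le_of_lt ht2 (Nat.lt_pow_self (by norm_num)), col, fun i => ?_⟩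
    have hc := count (2 ^ t) i
    rw [Nat.log_pow (by norm_num)] at hc
    have hc' : (({x : Fin 2 → ℕ | DistinctSol (!![1, -2] : Matrix (Fin 1) (Fin 2) ℤ)
      (fun _ => 2 * (i : ℕ)) x ∧ ∀ j, x j ≤ 2 ^ t ∧ col (x j) = i}.ncard : ℕ) : ℝ) ≤ t + 1 := by
      exact_mod_cast hc
    rw [div_lt_iff₀ (by positivity)] at ht1
    refine lt_of_le_of_lt hc' ?_
    simpa using ht1

end Pool.Agent.Results.MP_9bc523_co.NoSupersat
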